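import Pool.Agent.T6.H2.WK.Main2
import Pool.Agent.T6.H63.WL.MainB
import Pool.Agent.T6.H63.WL.HLB
import Pool.Agent.T6.H63.WL.CT
import Pool.Agent.T6.H63.WL.WT
import Pool.Agent.T6.H63.WL.RND
import Pool.Agent.T6.H63.WL.NM
import Pool.Agent.T6.H63.WL.CR

/-!
# The Waiter-Client `k`-SAT game: the quadratic bound and the bound `k^(1+δ)` together
-/

set_option autoImplicit false

open Pool.Agent.Y117.SG

namespace Pool.Agent.T6.H2.WK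

open Pool.Agent.T6.H63.WL

theorem wl_main : StmMain :=
  main_of (wt ct) rnd nm Pool.Agent.T6.H63.WK.pot hlB

theorem combined :
    -- Client wins, explicit bound for all `k ≥ 2`
    (∀ n k q : ℕ, 2 ≤ k → 200 * k ≤ n → (64 : ℝ) * k ^ 2 * (n.choose k : ℝ) ≤ n * ((q : ℝ) + 1) →
      ¬ Forces (offerWC q) (fun Y : Finset (Clause n) => ¬ Sat Y) (board n k) ∅) ∧
    (∀ n k : ℕ, 2 ≤ k → 200 * k ≤ n →
      1 / (65 * (k : ℝ) ^ 2 * Real.log 2) ≤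
        1 / (n : ℝ) * (n.choose k : ℝ) * ((bWC n k : ℝ))⁻¹ / Real.log 2) ∧
    -- Client wins, `15^(h+2) t k` with `k ≤ t^(h-1)`
    (∀ n k h t q : ℕ, 2 ≤ h → h ≤ t → h ≤ k → k ≤ t ^ (h - 1) → t * k ≤ n →
      (15 : ℝ) ^ (h + 2) * t * k * (n.choose k : ℝ) ≤ n * ((q : ℝ) + 1) →
      ¬ Forces (offerWC q) (fun Y : Finset (Clause n) => ¬ Sat Y) (board n k) ∅) ∧
    -- the ratio of the question
    (∀ δ : ℝ, 0 < δ → ∃ k0 : ℕ, ∀ k ≥ k0, ∀ n ≥ k ^ 2,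
      ((k : ℝ) ^ (1 + δ))⁻¹ ≤ 1 / (n : ℝ) * (n.choose k : ℝ) * ((bWC n k : ℝ))⁻¹ / Real.log 2) :=
  ⟨fun n k q => main2 n k q, fun n k => ratio2 n k, wl_main, cr wl_main⟩

end Pool.Agent.T6.H2.WK
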