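import Pool.Agent.T6.H2.WK.Constr

/-!
# Counting the sets which can be built up step by step, `h` points per element
-/

set_option autoImplicit false

open Finset

namespace Pool.Agent.T6.H2.WK

variable {X V : Type} [DecidableEq X] [DecidableEq V]

variable {pos P : X → Finset V}

open Classical in
/-- the number of continuations -/
lemma counth (h : ℕ) (B : Finset X) (w : ℕ) (Λ : ℝ) (hΛ0 : 0 ≤ Λ)
    (hΛ : ∀ (W : Finset V) (c : X), (W ∪ P c).card ≤ w →
      (((B.filter fun x => pos x ⊆ W ∪ P c ∧ ¬ pos x ⊆ W).card : ℕ) : ℝ) ≤ Λ)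
    (hP : ∀ c, (P c).card ≤ h) :
    ∀ (m : ℕ) (W : Finset V) (Q : Finset X) (r : ℕ), Q.card + r = m → (∀ x ∈ Q, pos x ⊆ W) →
      W.card + h * m ≤ w →
      (((Fam pos P B W Q r).card : ℕ) : ℝ) ≤ (m * Λ) ^ r / (r.factorial : ℝ) := by
  intro m
  induction m with
  | zero =>
    intro W Q r hm _ _
    have hr : r = 0 := by omega
    subst hr
    have h1 : (Fam pos P B W Q 0).card ≤ (powersetCard 0 B).card := card_le_card (filter_subset _ _)
    rw [card_powersetCard, Nat.choose_zero_right] at h1
    simp only [pow_zero, Nat.factorial_zero, Nat.cast_one, div_one]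
    exact_mod_cast h1
  | succ m ih =>
    intro W Q r hm hQW hw
    rw [Nat.mul_succ] at hw
    rcases Q.eq_empty_or_nonempty with hQ | ⟨c, hc⟩
    · -- nothing can be built
      have h0 : Fam pos P B W Q r = ∅ := by
        rw [Fam, filter_eq_empty_iff]
        rintro R hR ⟨_, h2, h3⟩
        have hRc := (mem_powersetCard.1 hR).2
        rw [hQ, empty_union] at h3
        rw [hQ, card_empty] at hm
        have hne : R.Nonempty := by
          rw [← card_pos]
          omega
        obtain ⟨x, hx, hx'⟩ := h3.start hne
        exact h2 x hx hx'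
      rw [h0, card_empty, Nat.cast_zero]
      positivity
    · have hL := step (P := P) B _ W Q r c hc (hQW c hc) rfl
      set L := B.filter fun x => pos x ⊆ W ∪ P c ∧ ¬ pos x ⊆ W with hLdef
      have hWP : (W ∪ P c).card ≤ W.card + h := (card_union_le _ _).trans (Nat.add_le_add_left (hP c) _)
      have hLΛ : (L.card : ℝ) ≤ Λ := hΛ W c (by omega)
      have hQc : (Q.erase c).card + 1 = Q.card := card_erase_add_one hc
      rw [card_sigma] at hL
      have hcast : (((Fam pos P B W Q r).card : ℕ) : ℝ) ≤ ∑ s ∈ range (r + 1),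
          ((((powersetCard s L).sigma fun S =>
            Fam pos P B (W ∪ P c) (Q.erase c ∪ S) (r - s)).card : ℕ) : ℝ) := by
        exact_mod_cast hL
      refine hcast.trans ?_
      have hsum : ∀ s ∈ range (r + 1), ((((powersetCard s L).sigma fun S =>
            Fam pos P B (W ∪ P c) (Q.erase c ∪ S) (r - s)).card : ℕ) : ℝ) ≤
          Λ ^ s / (s.factorial : ℝ) * ((m * Λ) ^ (r - s) / ((r - s).factorial : ℝ)) := by
        intro s hs
        have hs : s ≤ r := by
          have := mem_range.1 hs
          omega
        rw [card_sigma]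
        push_cast
        have hin : ∀ S ∈ powersetCard s L,
            (((Fam pos P B (W ∪ P c) (Q.erase c ∪ S) (r - s)).card : ℕ) : ℝ) ≤
              (m * Λ) ^ (r - s) / ((r - s).factorial : ℝ) := by
          intro S hS
          have hS := mem_powersetCard.1 hS
          by_cases hdis : Disjoint (Q.erase c) S
          · refine ih (W ∪ P c) (Q.erase c ∪ S) (r - s) ?_ ?_ ?_
            · rw [card_union_of_disjoint hdis, hS.2]
              omega
            · intro x hx
              rcases mem_union.1 hx with h | h
              · exact (hQW x (mem_of_mem_erase h)).trans subset_union_left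
              · exact (mem_filter.1 (hS.1 h)).2.1
            · omega
          · exfalso
            apply hdis
            rw [disjoint_left]
            intro x hx hxS
            exact (mem_filter.1 (hS.1 hxS)).2.2 (hQW x (mem_of_mem_erase hx))
        refine (sum_le_sum hin).trans ?_
        rw [sum_const, card_powersetCard, nsmul_eq_mul]
        refine mul_le_mul_of_nonneg_right ?_ (by positivity)
        refine (Nat.choose_le_pow_div _ _).trans ?_
        exact div_le_div_of_nonneg_right (pow_le_pow_left₀ (by positivity) hLΛ s) (by positivity)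
      refine (sum_le_sum hsum).trans (le_of_eq ?_)
      rw [binom]
      push_cast
      congr 2
      ring

open Classical in
/-- the number of sets of size `u` which can be built up from nothing -/
theorem count_conh (h : ℕ) (B : Finset X) (u : ℕ) (Λ : ℝ) (hΛ0 : 0 ≤ Λ)
    (hΛ : ∀ (W : Finset V) (c : X), (W ∪ P c).card ≤ h * u →
      (((B.filter fun x => pos x ⊆ W ∪ P c ∧ ¬ pos x ⊆ W).card : ℕ) : ℝ) ≤ Λ)
    (hP : ∀ c, (P c).card ≤ h) :
    ((((powersetCard u B).filter fun U => Con pos P ∅ U).card : ℕ) : ℝ) ≤
      (((B.filter fun x => pos x ⊆ ∅).card : ℝ) + u * Λ) ^ u / (u.factorial : ℝ) := by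
  set L := B.filter fun x => pos x ⊆ ∅ with hLdef
  have h1 : ((powersetCard u B).filter fun U => Con pos P ∅ U).card ≤
      ((range (u + 1)).sigma fun s => (powersetCard s L).sigma fun S =>
        Fam pos P B ∅ S (u - s)).card := by
    refine card_le_card_of_injOn (fun R => ⟨(R.filter fun x => pos x ⊆ ∅).card,
      R.filter fun x => pos x ⊆ ∅, R.filter fun x => ¬ pos x ⊆ ∅⟩)
      (fun R hR => ?_) (fun R _ R' _ e => ?_)
    · rw [mem_coe, mem_filter, mem_powersetCard] at hR
      obtain ⟨⟨hRB, hRc⟩, hcon⟩ := hR
      have hle : (R.filter fun x => pos x ⊆ ∅).card ≤ u := by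
        rw [← hRc]
        exact card_le_card (filter_subset _ _)
      rw [mem_coe, mem_sigma, mem_sigma]
      refine ⟨mem_range.2 (by simp only; omega), ?_, ?_⟩
      · rw [mem_powersetCard]
        refine ⟨fun x hx => ?_, rfl⟩
        have hx' := mem_filter.1 hx
        exact mem_filter.2 ⟨hRB hx'.1, hx'.2⟩
      · simp only
        rw [Fam, mem_filter, mem_powersetCard]
        refine ⟨⟨(filter_subset _ _).trans hRB, ?_⟩, disjoint_filter_filter_not _ _ _,
          fun x hx => (mem_filter.1 hx).2, ?_⟩
        · have := card_filter_add_card_filter_not (s := R) (fun x => pos x ⊆ ∅)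
          omega
        · rw [filter_union_filter_not_eq]
          exact hcon
    · simp only [Sigma.mk.injEq, heq_eq_eq] at e
      obtain ⟨_, e2⟩ := e
      have h1 : (R.filter fun x => pos x ⊆ ∅) = R'.filter fun x => pos x ⊆ ∅ := by
        rw [e2.1]
      have h2 : (R.filter fun x => ¬ pos x ⊆ ∅) = R'.filter fun x => ¬ pos x ⊆ ∅ := by
        rw [e2.2]
      rw [← filter_union_filter_not_eq (fun x => pos x ⊆ ∅) R, h1, h2,
        filter_union_filter_not_eq]
  rw [card_sigma] at h1
  have hcast : ((((powersetCard u B).filter fun U => Con pos P ∅ U).card : ℕ) : ℝ) ≤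
      ∑ s ∈ range (u + 1), ((((powersetCard s L).sigma fun S =>
        Fam pos P B ∅ S (u - s)).card : ℕ) : ℝ) := by
    exact_mod_cast h1
  refine hcast.trans ?_
  have hsum : ∀ s ∈ range (u + 1), ((((powersetCard s L).sigma fun S =>
        Fam pos P B ∅ S (u - s)).card : ℕ) : ℝ) ≤
      (L.card : ℝ) ^ s / (s.factorial : ℝ) * ((u * Λ) ^ (u - s) / ((u - s).factorial : ℝ)) := by
    intro s hs
    have hs : s ≤ u := by
      have := mem_range.1 hs
      omega
    rw [card_sigma]
    push_cast
    have hin : ∀ S ∈ powersetCard s L, (((Fam pos P B ∅ S (u - s)).card : ℕ) : ℝ) ≤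
          (u * Λ) ^ (u - s) / ((u - s).factorial : ℝ) := by
      intro S hS
      have hS := mem_powersetCard.1 hS
      refine counth h B (h * u) Λ hΛ0 hΛ hP u ∅ S (u - s) ?_ ?_ ?_
      · rw [hS.2]
        omega
      · intro x hx
        exact (mem_filter.1 (hS.1 hx)).2
      · rw [card_empty]
        omega
    refine (sum_le_sum hin).trans ?_
    rw [sum_const, card_powersetCard, nsmul_eq_mul]
    exact mul_le_mul_of_nonneg_right (Nat.choose_le_pow_div _ _) (by positivity)
  refine (sum_le_sum hsum).trans (le_of_eq ?_)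
  rw [binom]

end Pool.Agent.T6.H2.WK
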