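import Pool.Agent.T6.H63.WK.Defs

/-!
# Waiter-Client `k`-SAT: module HALL (insurance copy), the deterministic part
-/

set_option autoImplicit false

open Finset Pool.Agent.Y117.SG

namespace Pool.Agent.T6.H2.WK

open Pool.Agent.T6.H63.WK

lemma mem_vars {n : ℕ} {c : Clause n} {i : Fin n} :
    i ∈ vars c ↔ ∃ b, (i, b) ∈ c := by
  unfold vars
  rw [mem_image]
  constructor
  · rintro ⟨⟨j, b⟩, h, rfl⟩
    exact ⟨b, h⟩
  · rintro ⟨b, h⟩
    exact ⟨_, h, rfl⟩

lemma card_vars {n k : ℕ} {c : Clause n} (hc : c ∈ board n k) : (vars c).card = k := by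
  have h := (mem_filter.1 hc).2
  unfold vars
  rw [card_image_of_injOn, h.1]
  intro l hl l' hl' e
  exact h.2 l hl l' hl' e

lemma out_mono {n : ℕ} {W W' : Finset (Fin n)} (h : W ⊆ W') {c : Clause n} (hc : Out W c) :
    Out W' c := fun l hl hW => hc l hl (fun hh => hW (h hh))

open Classical in
lemma closure (n k u : ℕ) (F : Finset (Clause n)) (hk : 2 ≤ k) (hu : 2 * u ≤ n)
    (hF : F ⊆ board n k)
    (h1 : ∀ W : Finset (Fin n), W.card = 2 * u → ∀ U ⊆ F, U.card = u → ¬ U ⊆ fam1 n k W) :
    ∃ W : Finset (Fin n), W.card ≤ 2 * u ∧ ∀ c ∈ F, Out W c → 2 ≤ (vars c ∩ W).card := by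
  -- after `j` steps
  have key : ∀ j : ℕ, (∃ W : Finset (Fin n), W.card ≤ 2 * u ∧ ∀ c ∈ F, Out W c →
      2 ≤ (vars c ∩ W).card) ∨ j ≤ u → ((∃ W : Finset (Fin n), W.card ≤ 2 * u ∧ ∀ c ∈ F, Out W c →
      2 ≤ (vars c ∩ W).card) ∨ ∃ (W : Finset (Fin n)) (U : Finset (Clause n)), W.card ≤ 2 * j ∧
        U ⊆ F ∧ U.card = j ∧ U ⊆ fam2 n k W) := by
    intro j
    induction j with
    | zero =>
      intro _
      right
      exact ⟨∅, ∅, by simp, empty_subset _, rfl, empty_subset _⟩
    | succ j ih =>
      intro hj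
      have hj' : (∃ W : Finset (Fin n), W.card ≤ 2 * u ∧ ∀ c ∈ F, Out W c →
          2 ≤ (vars c ∩ W).card) ∨ j ≤ u := by
        rcases hj with h | h
        · exact Or.inl h
        · exact Or.inr (by omega)
      rcases ih hj' with h | ⟨W, U, hW, hUF, hUc, hU⟩
      · exact Or.inl h
      · rcases hj with h | hj
        · exact Or.inl h
        by_cases hgood : ∀ c ∈ F, Out W c → 2 ≤ (vars c ∩ W).card
        · exact Or.inl ⟨W, by omega, hgood⟩
        · push Not at hgood
          obtain ⟨c, hcF, hco, hc2⟩ := hgood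
          right
          obtain ⟨P, hP, hPc⟩ := exists_subset_card_eq (show 2 ≤ (vars c).card by
            rw [card_vars (hF hcF)]; exact hk)
          refine ⟨W ∪ P, insert c U, ?_, ?_, ?_, ?_⟩
          · have := card_union_le W P
            omega
          · intro x hx
            rcases mem_insert.1 hx with rfl | hx
            · exact hcF
            · exact hUF hx
          · rw [card_insert_of_notMem, hUc]
            intro hcU
            have := (mem_filter.1 (hU hcU)).2.2
            omega
          · intro x hx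
            rw [fam2, mem_filter]
            rcases mem_insert.1 hx with rfl | hx
            · refine ⟨hF hcF, out_mono subset_union_left hco, ?_⟩
              rw [← hPc]
              exact card_le_card (subset_inter hP subset_union_right)
            · have := mem_filter.1 (hU hx)
              refine ⟨this.1, out_mono subset_union_left this.2.1, this.2.2.trans ?_⟩
              exact card_le_card (inter_subset_inter_left subset_union_left)
  rcases key u (Or.inr le_rfl) with h | ⟨W, U, hW, hUF, hUc, hU⟩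
  · exact h
  · exfalso
    obtain ⟨W', hWW', hW'⟩ := exists_superset_card_eq (s := W) (n := 2 * u) hW (by
      rw [Fintype.card_fin]; exact hu)
    refine h1 W' hW' U hUF hUc fun c hc => ?_
    have := mem_filter.1 (hU hc)
    rw [fam1, mem_filter]
    exact ⟨this.1, out_mono hWW' this.2.1⟩

open Classical in
theorem hall : StmHall := by
  intro n k u F hk hu hF h1 h2
  obtain ⟨W, hWc, hW⟩ := closure n k u F hk hu hF h1
  set D : Finset (Clause n) := F.filter fun c => Out W c with hD
  -- Hall's theorem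
  have hall : ∃ f : D → Fin n, Function.Injective f ∧ ∀ c : D, f c ∈ vars c.1 ∩ W := by
    rw [← Finset.all_card_le_biUnion_card_iff_exists_injective (fun c : D => vars c.1 ∩ W)]
    intro S
    by_contra hlt
    push Not at hlt
    set Y : Finset (Fin n) := S.biUnion fun c => vars c.1 ∩ W with hY
    have hYW : Y ⊆ W := by
      intro i hi
      obtain ⟨c, _, hi⟩ := mem_biUnion.1 hi
      exact (mem_inter.1 hi).2
    have hSc : (S.image Subtype.val).card = S.card :=
      card_image_of_injective _ Subtype.val_injective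
    obtain ⟨S', hS', hS'c⟩ := exists_subset_card_eq (show Y.card + 1 ≤ (S.image Subtype.val).card by
      omega)
    refine h2 Y ((card_le_card hYW).trans hWc) S' ?_ hS'c ?_
    · intro c hc
      obtain ⟨c', _, rfl⟩ := mem_image.1 (hS' hc)
      exact (mem_filter.1 c'.2).1
    · intro c hc
      obtain ⟨c', hc', rfl⟩ := mem_image.1 (hS' hc)
      have hcD := mem_filter.1 c'.2
      have hsub : vars c'.1 ∩ W ⊆ vars c'.1 ∩ Y := by
        intro i hi
        exact mem_inter.2 ⟨(mem_inter.1 hi).1, mem_biUnion.2 ⟨c', hc', hi⟩⟩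
      rw [fam2, mem_filter]
      refine ⟨hF hcD.1, fun l hl hlY => ?_, (hW _ hcD.1 hcD.2).trans (card_le_card hsub)⟩
      refine hcD.2 l hl fun hlW => hlY ?_
      exact (mem_inter.1 (hsub (mem_inter.2 ⟨mem_vars.2 ⟨l.2, hl⟩, hlW⟩))).2
  obtain ⟨f, hf, hfm⟩ := hall
  -- the assignment
  refine ⟨fun i => if h : ∃ c : D, f c = i then decide ((i, true) ∈ h.choose.1) else true,
    fun c hc => ?_⟩
  by_cases hcD : Out W c
  · have hcD' : c ∈ D := mem_filter.2 ⟨hc, hcD⟩
    have hi := (mem_inter.1 (hfm ⟨c, hcD'⟩)).1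
    obtain ⟨b, hb⟩ := mem_vars.1 hi
    refine ⟨_, hb, ?_⟩
    have hex : ∃ c' : D, f c' = f ⟨c, hcD'⟩ := ⟨_, rfl⟩
    simp only
    rw [dif_pos hex]
    have hch : hex.choose = ⟨c, hcD'⟩ := hf hex.choose_spec
    rw [hch]
    have hboard := (mem_filter.1 (hF hc)).2.2
    cases b
    · rw [decide_eq_false_iff_not]
      intro ht
      have := hboard _ hb _ ht rfl
      simp at this
    · exact decide_eq_true hb
  · unfold Out at hcD
    push Not at hcD
    obtain ⟨l, hl, hlW, hlt⟩ := hcD
    refine ⟨l, hl, ?_⟩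
    simp only
    rw [dif_neg]
    · cases h : l.2
      · exact absurd h hlt
      · rfl
    · rintro ⟨c', hc'⟩
      exact hlW (hc' ▸ (mem_inter.1 (hfm c')).2)

end Pool.Agent.T6.H2.WK
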