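import Pool.Agent.T6.H2.WK.Constr
import Pool.Agent.T6.H2.WK.HALL
import Pool.Agent.T6.H63.WK.CNT2

/-!
# Waiter-Client `k`-SAT: the deterministic part with constructible sets, and the counting bound
-/

set_option autoImplicit false

open Finset Pool.Agent.Y117.SG

namespace Pool.Agent.T6.H2.WK

open Pool.Agent.T6.H63.WK Pool.Agent.T6.H63.WK.CNT

open Classical in
/-- two variables of a clause -/
noncomputable def pp {n : ℕ} (c : Clause n) : Finset (Fin n) :=
  if h : 2 ≤ (vars c).card then (exists_subset_card_eq h).choose else ∅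

lemma pp_card_le {n : ℕ} (c : Clause n) : (pp c).card ≤ 2 := by
  unfold pp
  split_ifs with h
  · exact (exists_subset_card_eq h).choose_spec.2.le
  · simp

lemma pp_spec {n : ℕ} {c : Clause n} (h : 2 ≤ (vars c).card) :
    pp c ⊆ vars c ∧ (pp c).card = 2 := by
  unfold pp
  rw [dif_pos h]
  exact (exists_subset_card_eq h).choose_spec

lemma out_iff {n : ℕ} {W : Finset (Fin n)} {c : Clause n} : Out W c ↔ posv c ⊆ W := by
  constructor
  · intro h i hi
    by_contra hW
    have := h (i, true) (mem_posv.1 hi) hW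
    simp at this
  · rintro h ⟨i, b⟩ hl hW
    cases b
    · rfl
    · exact absurd (h (mem_posv.2 hl)) hW

open Classical in
lemma closure2 (n k u : ℕ) (F : Finset (Clause n)) (hk : 2 ≤ k) (hF : F ⊆ board n k)
    (h1 : ∀ U ⊆ F, U.card = u → ¬ Con posv pp ∅ U) :
    ∃ W : Finset (Fin n), W.card ≤ 2 * u ∧ ∀ c ∈ F, Out W c → 2 ≤ (vars c ∩ W).card := by
  by_contra hno
  push Not at hno
  have key : ∀ j : ℕ, j ≤ u → ∃ U : Finset (Clause n), U ⊆ F ∧ U.card = j ∧ Con posv pp ∅ U := by
    intro j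
    induction j with
    | zero =>
      intro _
      exact ⟨∅, empty_subset _, rfl, Con.nil _⟩
    | succ j ih =>
      intro hj
      obtain ⟨U, hUF, hUc, hU⟩ := ih (by omega)
      have hW : (U.biUnion pp).card ≤ 2 * u := by
        have := card_biUnion_le_card_mul U pp 2 (fun c _ => pp_card_le c)
        nlinarith
      obtain ⟨c, hcF, hco, hc2⟩ := hno (U.biUnion pp) hW
      refine ⟨insert c U, insert_subset hcF hUF, ?_, ?_⟩
      · rw [card_insert_of_notMem, hUc]
        intro hcU
        have hs := pp_spec (show 2 ≤ (vars c).card by rw [card_vars (hF hcF)]; exact hk)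
        have : pp c ⊆ vars c ∩ U.biUnion pp :=
          subset_inter hs.1 (subset_biUnion_of_mem pp hcU)
        have := card_le_card this
        rw [hs.2] at this
        omega
      · refine hU.snoc c ?_ ?_
        · intro hcU
          have hs := pp_spec (show 2 ≤ (vars c).card by rw [card_vars (hF hcF)]; exact hk)
          have : pp c ⊆ vars c ∩ U.biUnion pp :=
            subset_inter hs.1 (subset_biUnion_of_mem pp hcU)
          have := card_le_card this
          rw [hs.2] at this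
          omega
        · rw [empty_union]
          exact out_iff.1 hco
  obtain ⟨U, hUF, hUc, hU⟩ := key u le_rfl
  exact h1 U hUF hUc hU

open Classical in
theorem sat_of (n k u : ℕ) (F : Finset (Clause n)) (hk : 2 ≤ k) (hF : F ⊆ board n k)
    (h1 : ∀ U ⊆ F, U.card = u → ¬ Con posv pp ∅ U)
    (h2 : ∀ Y : Finset (Fin n), Y.card ≤ 2 * u → ∀ S ⊆ F, S.card = Y.card + 1 →
      ¬ S ⊆ fam2 n k Y) : Sat F := by
  obtain ⟨W, hWc, hW⟩ := closure2 n k u F hk hF h1
  set D : Finset (Clause n) := F.filter fun c => Out W c with hD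
  -- Hall's theorem
  have hall : ∃ f : D → Fin n, Function.Injective f ∧ ∀ c : D, f c ∈ vars c.1 ∩ W := by
    rw [← Finset.all_card_le_biUnion_card_iff_exists_injective (fun c : D => vars c.1 ∩ W)]
    intro S
    by_contra hlt
    push Not at hlt
    set Y : Finset (Fin n) := S.biUnion fun c => vars c.1 ∩ W with hY
    have hYW : Y ⊆ W := by
      intro i hi
      obtain ⟨c, _, hi⟩ := mem_biUnion.1 hi
      exact (mem_inter.1 hi).2
    have hSc : (S.image Subtype.val).card = S.card :=
      card_image_of_injective _ Subtype.val_injective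
    obtain ⟨S', hS', hS'c⟩ := exists_subset_card_eq (show Y.card + 1 ≤ (S.image Subtype.val).card by
      omega)
    refine h2 Y ((card_le_card hYW).trans hWc) S' ?_ hS'c ?_
    · intro c hc
      obtain ⟨c', _, rfl⟩ := mem_image.1 (hS' hc)
      exact (mem_filter.1 c'.2).1
    · intro c hc
      obtain ⟨c', hc', rfl⟩ := mem_image.1 (hS' hc)
      have hcD := mem_filter.1 c'.2
      have hsub : vars c'.1 ∩ W ⊆ vars c'.1 ∩ Y := by
        intro i hi
        exact mem_inter.2 ⟨(mem_inter.1 hi).1, mem_biUnion.2 ⟨c', hc', hi⟩⟩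
      rw [fam2, mem_filter]
      refine ⟨hF hcD.1, fun l hl hlY => ?_, (hW _ hcD.1 hcD.2).trans (card_le_card hsub)⟩
      refine hcD.2 l hl fun hlW => hlY ?_
      exact (mem_inter.1 (hsub (mem_inter.2 ⟨WK.mem_vars.2 ⟨l.2, hl⟩, hlW⟩))).2
  obtain ⟨f, hf, hfm⟩ := hall
  -- the assignment
  refine ⟨fun i => if h : ∃ c : D, f c = i then decide ((i, true) ∈ h.choose.1) else true,
    fun c hc => ?_⟩
  by_cases hcD : Out W c
  · have hcD' : c ∈ D := mem_filter.2 ⟨hc, hcD⟩
    have hi := (mem_inter.1 (hfm ⟨c, hcD'⟩)).1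
    obtain ⟨b, hb⟩ := WK.mem_vars.1 hi
    refine ⟨_, hb, ?_⟩
    have hex : ∃ c' : D, f c' = f ⟨c, hcD'⟩ := ⟨_, rfl⟩
    simp only
    rw [dif_pos hex]
    have hch : hex.choose = ⟨c, hcD'⟩ := hf hex.choose_spec
    rw [hch]
    have hboard := (mem_filter.1 (hF hc)).2.2
    cases b
    · rw [decide_eq_false_iff_not]
      intro ht
      have := hboard _ hb _ ht rfl
      simp at this
    · exact decide_eq_true hb
  · unfold Out at hcD
    push Not at hcD
    obtain ⟨l, hl, hlW, hlt⟩ := hcD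
    refine ⟨l, hl, ?_⟩
    simp only
    rw [dif_neg]
    · cases h : l.2
      · exact absurd h hlt
      · rfl
    · rintro ⟨c', hc'⟩
      exact hlW (hc' ▸ (mem_inter.1 (hfm c')).2)

open Classical in
/-- the number of new clauses in one step -/
lemma lam (n k u : ℕ) (hk : 2 ≤ k) (hkn : k ≤ n) (hu : 2 * k * u ≤ n) (W : Finset (Fin n))
    (c : Clause n) (hW : (W ∪ pp c).card ≤ 2 * u) :
    ((((board n k).filter fun x => posv x ⊆ W ∪ pp c ∧ ¬ posv x ⊆ W).card : ℕ) : ℝ) ≤
      4 * Real.exp 1 * ((k : ℝ) / n) * (n.choose k : ℝ) := by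
  have hn0 : (0 : ℝ) < n := by exact_mod_cast (by omega : 0 < n)
  have hsub : ((board n k).filter fun x => posv x ⊆ W ∪ pp c ∧ ¬ posv x ⊆ W) ⊆
      ((pp c)).biUnion fun a => (fam1 n k (W ∪ pp c)).filter fun x => {a} ⊆ vars x := by
    intro x hx
    obtain ⟨hxB, hx1, hx2⟩ := mem_filter.1 hx
    obtain ⟨a, ha, haW⟩ := not_subset.1 hx2
    have hac : a ∈ pp c := by
      rcases mem_union.1 (hx1 ha) with h | h
      · exact absurd h haW
      · exact h
    rw [mem_biUnion]
    refine ⟨a, hac, ?_⟩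
    rw [mem_filter, fam1, mem_filter]
    exact ⟨⟨hxB, out_iff.2 hx1⟩, singleton_subset_iff.2 (posv_subset x ha)⟩
  have h1 : ((((board n k).filter fun x => posv x ⊆ W ∪ pp c ∧ ¬ posv x ⊆ W).card : ℕ) : ℝ) ≤
      ∑ a ∈ pp c, (((fam1 n k (W ∪ pp c)).filter fun x => {a} ⊆ vars x).card : ℝ) := by
    have := (card_le_card hsub).trans card_biUnion_le
    exact_mod_cast this
  have hexp : Real.exp ((k : ℝ) * (W ∪ pp c).card / n) ≤ Real.exp 1 := by
    apply Real.exp_le_exp.2
    rw [div_le_one hn0]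
    have : k * (W ∪ pp c).card ≤ n := by nlinarith
    exact_mod_cast this
  have h2 : ∑ a ∈ pp c, (((fam1 n k (W ∪ pp c)).filter fun x => {a} ⊆ vars x).card : ℝ) ≤
      ∑ a ∈ pp c, ((n.choose k : ℝ) * ((2 * ((k : ℝ) / n)) * Real.exp 1)) := by
    refine sum_le_sum fun a ha => ?_
    have := key n k hkn (by omega) (W ∪ pp c) {a}
      (singleton_subset_iff.2 (mem_union_right _ ha))
    rw [card_singleton, pow_one] at this
    refine this.trans (mul_le_mul_of_nonneg_left (mul_le_mul_of_nonneg_left hexp (by positivity))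
      (by positivity))
  rw [sum_const, nsmul_eq_mul] at h2
  have h3 : ((pp c).card : ℝ) ≤ 2 := by exact_mod_cast pp_card_le c
  calc _ ≤ _ := h1
    _ ≤ _ := h2
    _ ≤ 2 * ((n.choose k : ℝ) * ((2 * ((k : ℝ) / n)) * Real.exp 1)) :=
      mul_le_mul_of_nonneg_right h3 (by positivity)
    _ = _ := by ring

open Classical in
/-- the number of constructible sets of `u` clauses -/
lemma num_con (n k u : ℕ) (hk : 2 ≤ k) (hkn : k ≤ n) (hu : 2 * k * u ≤ n) :
    ((((powersetCard u (board n k)).filter fun U => Con posv pp ∅ U).card : ℕ) : ℝ) ≤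
      ((1 + 2 * Real.exp 1) * (n.choose k : ℝ)) ^ u / (u.factorial : ℝ) := by
  have hn0 : (0 : ℝ) < n := by exact_mod_cast (by omega : 0 < n)
  have h := count_con (pos := posv) (P := pp) (board n k) u
    (4 * Real.exp 1 * ((k : ℝ) / n) * (n.choose k : ℝ)) (by positivity)
    (fun W c hW => lam n k u hk hkn hu W c hW) pp_card_le
  refine h.trans (div_le_div_of_nonneg_right (pow_le_pow_left₀ (by positivity) ?_ u) (by positivity))
  have h1 : ((((board n k).filter fun x => posv x ⊆ ∅).card : ℕ) : ℝ) ≤ (n.choose k : ℝ) := by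
    have h2 := cnt1 n k hk hkn ∅
    have h3 : ((board n k).filter fun x => posv x ⊆ ∅) = fam1 n k ∅ := by
      rw [fam1]
      refine filter_congr fun x _ => ?_
      rw [out_iff]
    rw [h3]
    simpa using h2
  have h4 : (u : ℝ) * (4 * Real.exp 1 * ((k : ℝ) / n) * (n.choose k : ℝ)) ≤
      2 * Real.exp 1 * (n.choose k : ℝ) := by
    have h5 : (2 : ℝ) * k * u ≤ n := by exact_mod_cast hu
    have h6 : (u : ℝ) * (k / n) * 2 ≤ 1 := by
      rw [mul_div_assoc', div_mul_eq_mul_div, div_le_one hn0]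
      linarith
    have h7 : (0 : ℝ) ≤ 2 * Real.exp 1 * (n.choose k : ℝ) := by positivity
    calc (u : ℝ) * (4 * Real.exp 1 * ((k : ℝ) / n) * (n.choose k : ℝ)) =
        ((u : ℝ) * (k / n) * 2) * (2 * Real.exp 1 * (n.choose k : ℝ)) := by ring
      _ ≤ 1 * (2 * Real.exp 1 * (n.choose k : ℝ)) := mul_le_mul_of_nonneg_right h6 h7
      _ = _ := by ring
  nlinarith

end Pool.Agent.T6.H2.WK
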