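import Pool.Agent.T6.H2.WK.HALL
import Pool.Agent.T6.H63.WL.Defs

/-!
# Waiter-Client `k`-SAT: module HL of project WL (insurance copy)
-/

set_option autoImplicit false

open Finset Pool.Agent.Y117.SG

namespace Pool.Agent.T6.H2.WL

open Pool.Agent.T6.H63.WK Pool.Agent.T6.H63.WL Pool.Agent.T6.H2.WK

open Classical in
lemma closure3 (n k h u : ℕ) (F : Finset (Clause n)) (d : Clause n → Finset (Fin n))
    (hu : h * u ≤ n) (hd : ∀ c ∈ F, d c ⊆ vars c ∧ (d c).card = h)
    (h1 : ∀ W : Finset (Fin n), W.card = h * u → ∀ U ⊆ F, U.card = u →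
      ¬ ∀ c ∈ U, Out W c ∧ d c ⊆ W) :
    ∃ W : Finset (Fin n), W.card ≤ h * u ∧ ∀ c ∈ F, Out W c → d c ⊆ W := by
  by_contra hno
  push Not at hno
  have key : ∀ j : ℕ, j ≤ u → ∃ (W : Finset (Fin n)) (U : Finset (Clause n)), W.card ≤ h * j ∧
      U ⊆ F ∧ U.card = j ∧ ∀ c ∈ U, Out W c ∧ d c ⊆ W := by
    intro j
    induction j with
    | zero =>
      intro _
      exact ⟨∅, ∅, by simp, empty_subset _, rfl, by simp⟩
    | succ j ih =>
      intro hj
      obtain ⟨W, U, hW, hUF, hUc, hU⟩ := ih (by omega)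
      obtain ⟨c, hcF, hco, hcd⟩ := hno W (hW.trans (Nat.mul_le_mul_left h (by omega)))
      refine ⟨W ∪ d c, insert c U, ?_, insert_subset hcF hUF, ?_, ?_⟩
      · have := card_union_le W (d c)
        rw [(hd c hcF).2] at this
        rw [Nat.mul_succ]
        omega
      · rw [card_insert_of_notMem, hUc]
        intro hcU
        exact hcd (hU c hcU).2
      · intro x hx
        rcases mem_insert.1 hx with rfl | hx
        · exact ⟨out_mono subset_union_left hco, subset_union_right⟩
        · exact ⟨out_mono subset_union_left (hU x hx).1, (hU x hx).2.trans subset_union_left⟩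
  obtain ⟨W, U, hW, hUF, hUc, hU⟩ := key u le_rfl
  obtain ⟨W', hWW', hW'⟩ := exists_superset_card_eq (s := W) (n := h * u) hW (by
    rw [Fintype.card_fin]; exact hu)
  exact h1 W' hW' U hUF hUc fun c hc => ⟨out_mono hWW' (hU c hc).1, (hU c hc).2.trans hWW'⟩

open Classical in
theorem hl : StmHl := by
  intro n k h u F d _ hu hF hd h1 h2
  obtain ⟨W, hWc, hW⟩ := closure3 n k h u F d hu hd h1
  set D : Finset (Clause n) := F.filter fun c => Out W c with hD
  -- Hall's theorem
  have hall : ∃ f : D → Fin n, Function.Injective f ∧ ∀ c : D, f c ∈ vars c.1 ∩ W := by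
    rw [← Finset.all_card_le_biUnion_card_iff_exists_injective (fun c : D => vars c.1 ∩ W)]
    intro S
    by_contra hlt
    push Not at hlt
    set Y : Finset (Fin n) := S.biUnion fun c => vars c.1 ∩ W with hY
    have hYW : Y ⊆ W := by
      intro i hi
      obtain ⟨c, _, hi⟩ := mem_biUnion.1 hi
      exact (mem_inter.1 hi).2
    have hSc : (S.image Subtype.val).card = S.card :=
      card_image_of_injective _ Subtype.val_injective
    obtain ⟨S', hS', hS'c⟩ := exists_subset_card_eq (show Y.card + 1 ≤ (S.image Subtype.val).card by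
      omega)
    refine h2 Y ((card_le_card hYW).trans hWc) S' ?_ hS'c ?_
    · intro c hc
      obtain ⟨c', _, rfl⟩ := mem_image.1 (hS' hc)
      exact (mem_filter.1 c'.2).1
    · intro c hc
      obtain ⟨c', hc', rfl⟩ := mem_image.1 (hS' hc)
      have hcD := mem_filter.1 c'.2
      have hsub : vars c'.1 ∩ W ⊆ vars c'.1 ∩ Y := by
        intro i hi
        exact mem_inter.2 ⟨(mem_inter.1 hi).1, mem_biUnion.2 ⟨c', hc', hi⟩⟩
      have hdW : d c'.1 ⊆ vars c'.1 ∩ W := subset_inter (hd _ hcD.1).1 (hW _ hcD.1 hcD.2)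
      rw [famh, mem_filter]
      refine ⟨hF hcD.1, fun l hl hlY => ?_, ?_⟩
      · refine hcD.2 l hl fun hlW => hlY ?_
        exact (mem_inter.1 (hsub (mem_inter.2 ⟨WK.mem_vars.2 ⟨l.2, hl⟩, hlW⟩))).2
      · rw [← (hd _ hcD.1).2]
        exact card_le_card (hdW.trans hsub)
  obtain ⟨f, hf, hfm⟩ := hall
  -- the assignment
  refine ⟨fun i => if h : ∃ c : D, f c = i then decide ((i, true) ∈ h.choose.1) else true,
    fun c hc => ?_⟩
  by_cases hcD : Out W c
  · have hcD' : c ∈ D := mem_filter.2 ⟨hc, hcD⟩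
    have hi := (mem_inter.1 (hfm ⟨c, hcD'⟩)).1
    obtain ⟨b, hb⟩ := WK.mem_vars.1 hi
    refine ⟨_, hb, ?_⟩
    have hex : ∃ c' : D, f c' = f ⟨c, hcD'⟩ := ⟨_, rfl⟩
    simp only
    rw [dif_pos hex]
    have hch : hex.choose = ⟨c, hcD'⟩ := hf hex.choose_spec
    rw [hch]
    have hboard := (mem_filter.1 (hF hc)).2.2
    cases b
    · rw [decide_eq_false_iff_not]
      intro ht
      have := hboard _ hb _ ht rfl
      simp at this
    · exact decide_eq_true hb
  · unfold Out at hcD
    push Not at hcD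
    obtain ⟨l, hl, hlW, hlt⟩ := hcD
    refine ⟨l, hl, ?_⟩
    simp only
    rw [dif_neg]
    · cases h : l.2
      · exact absurd h hlt
      · rfl
    · rintro ⟨c', hc'⟩
      exact hlW (hc' ▸ (mem_inter.1 (hfm c')).2)

end Pool.Agent.T6.H2.WL
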