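import Mathlib

/-! Waiter-Client `k`-SAT: the numerical inequality for the bound `64 k^2`. -/

set_option autoImplicit false

open Finset

namespace Pool.Agent.T6.H2.WK

theorem num2 (n k u : ℕ) (hk : 2 ≤ k) (hn : 200 * k ≤ n) (hu : u = n / (2 * k)) :
  ((1 + 2 * Real.exp 1) * (n / (64 * k ^ 2))) ^ u / (u.factorial : ℝ) +
    ∑ y ∈ Finset.range (2 * u + 1), (n.choose y : ℝ) *
      ((Real.exp 1 * y ^ 2 / (32 * n)) ^ (y + 1) / ((y + 1).factorial : ℝ)) < 1 := by
  have hE1 : Real.exp 1 < 2.7182818286 := Real.exp_one_lt_d9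
  have hE0 : 0 < Real.exp 1 := Real.exp_pos 1
  obtain ⟨E, hE⟩ : ∃ E : ℝ, E = Real.exp 1 := ⟨_, rfl⟩
  rw [← hE] at hE1 hE0 ⊢
  have hexp : ∀ m : ℕ, Real.exp (m : ℝ) = E ^ m := by
    intro m
    rw [hE, ← Real.exp_nat_mul, mul_one]
  have hf : ∀ a m : ℕ, (a : ℝ) ^ m / (m.factorial : ℝ) ≤ E ^ a := by
    intro a m
    rw [← hexp]
    exact Real.pow_div_factorial_le_exp _ (Nat.cast_nonneg _) _
  have hkr : (2 : ℝ) ≤ k := by exact_mod_cast hk
  have hk0 : (0 : ℝ) < k := by linarith
  have hnr : (200 : ℝ) * k ≤ n := by exact_mod_cast hn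
  have hn0 : (0 : ℝ) < n := by linarith
  have hu1 : 100 ≤ u := by
    rw [hu, Nat.le_div_iff_mul_le (by omega)]
    omega
  have hu2 : 2 * k * u ≤ n := by
    rw [hu]
    exact Nat.mul_div_le n (2 * k)
  have hu3 : n < 2 * k * (u + 1) := by
    rw [hu]
    exact Nat.lt_mul_div_succ n (by omega)
  have hu1r : (100 : ℝ) ≤ u := by exact_mod_cast hu1
  have hu0 : (0 : ℝ) < u := by linarith
  have hu3r : (n : ℝ) < 2 * k * (u + 1) := by exact_mod_cast hu3
  have hE3 : E ^ 3 ≤ 2.7182818286 ^ 3 := pow_le_pow_left₀ hE0.le hE1.le 3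
  -- the first term
  have first : ((1 + 2 * E) * (n / (64 * k ^ 2))) ^ u / (u.factorial : ℝ) ≤ 1 / 4 := by
    obtain ⟨r, hr⟩ : ∃ r : ℝ, r = n / u := ⟨_, rfl⟩
    have hr0 : 0 < r := by rw [hr]; positivity
    have hnr2 : (n : ℝ) = r * u := by rw [hr]; field_simp
    have hr2 : r ≤ 2.02 * k := by
      rw [hr, div_le_iff₀ hu0]
      have : 2 * (k : ℝ) * 1 ≤ 2 * k * (u / 100) := by
        apply mul_le_mul_of_nonneg_left _ (by positivity)
        linarith
      nlinarith
    have t2 : ((1 + 2 * E) * (n / (64 * k ^ 2))) ^ u / (u.factorial : ℝ) ≤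
        ((1 + 2 * E) * (r / (64 * k ^ 2)) * E) ^ u := by
      calc ((1 + 2 * E) * (n / (64 * k ^ 2))) ^ u / (u.factorial : ℝ)
          = ((1 + 2 * E) * (r / (64 * k ^ 2))) ^ u * ((u : ℝ) ^ u / (u.factorial : ℝ)) := by
            have e : (1 + 2 * E) * (n / (64 * k ^ 2)) = ((1 + 2 * E) * (r / (64 * k ^ 2))) * u := by
              rw [hnr2]
              ring
            rw [e, mul_pow, mul_div_assoc]
        _ ≤ ((1 + 2 * E) * (r / (64 * k ^ 2))) ^ u * E ^ u :=
            mul_le_mul_of_nonneg_left (hf _ _) (by positivity)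
        _ = _ := by rw [← mul_pow]
    have t4 : (1 + 2 * E) * (r / (64 * k ^ 2)) * E ≤ 1 / 2 := by
      have h1 : r / (64 * k ^ 2) ≤ 1.01 / 64 := by
        rw [div_le_div_iff₀ (by positivity) (by norm_num)]
        nlinarith
      have h2 : (1 + 2 * E) * E ≤ (1 + 2 * 2.7182818286) * 2.7182818286 :=
        mul_le_mul (by linarith) hE1.le hE0.le (by norm_num)
      have h3 : (1 + 2 * E) * (r / (64 * k ^ 2)) * E = (1 + 2 * E) * E * (r / (64 * k ^ 2)) := by ring
      rw [h3]
      calc (1 + 2 * E) * E * (r / (64 * k ^ 2)) ≤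
          ((1 + 2 * 2.7182818286) * 2.7182818286) * (1.01 / 64) :=
            mul_le_mul h2 h1 (by positivity) (by norm_num)
        _ ≤ 1 / 2 := by norm_num
    refine t2.trans ((pow_le_pow_left₀ (by positivity) t4 u).trans ?_)
    calc (1 / 2 : ℝ) ^ u ≤ (1 / 2) ^ 2 := pow_le_pow_of_le_one (by norm_num) (by norm_num) (by omega)
      _ = 1 / 4 := by norm_num
  -- the second sum
  have second : ∀ y ∈ Finset.range (2 * u + 1), (n.choose y : ℝ) *
      ((E * y ^ 2 / (32 * n)) ^ (y + 1) / ((y + 1).factorial : ℝ)) ≤ 1 / 8 * (2 / 3) ^ y := by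
    intro y hy
    rw [Finset.mem_range] at hy
    rcases Nat.eq_zero_or_pos y with h0 | h0
    · subst h0
      norm_num
    · have hy0 : (0 : ℝ) < y := by exact_mod_cast h0
      have hyn : (y : ℝ) ≤ n := by
        have h2u : 2 * u ≤ n := by
          calc 2 * u ≤ 2 * k * u := by nlinarith
            _ ≤ n := hu2
        exact_mod_cast (by omega : y ≤ n)
      have t1 : (n.choose y : ℝ) ≤ (n / y) ^ y * E ^ y := by
        calc (n.choose y : ℝ) ≤ (n : ℝ) ^ y / (y.factorial : ℝ) := Nat.choose_le_pow_div _ _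
          _ = (n / y) ^ y * ((y : ℝ) ^ y / (y.factorial : ℝ)) := by
              rw [← mul_div_assoc, ← mul_pow]
              congr 2
              field_simp
          _ ≤ _ := mul_le_mul_of_nonneg_left (hf _ _) (by positivity)
      have t2 : (E * y ^ 2 / (32 * n)) ^ (y + 1) / ((y + 1).factorial : ℝ) ≤
          (E * y / (32 * n)) ^ (y + 1) * E ^ y := by
        calc (E * y ^ 2 / (32 * n)) ^ (y + 1) / ((y + 1).factorial : ℝ)
            = (E * y / (32 * n)) ^ (y + 1) * ((y : ℝ) ^ (y + 1) / ((y + 1).factorial : ℝ)) := by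
              rw [← mul_div_assoc, ← mul_pow]
              congr 2
              ring
          _ ≤ _ := mul_le_mul_of_nonneg_left (hf _ _) (by positivity)
      have t3 : (n / y) ^ y * E ^ y * ((E * y / (32 * n)) ^ (y + 1) * E ^ y) =
          (E * y / (32 * n)) * (n / y * E * (E * y / (32 * n)) * E) ^ y := by
        rw [mul_pow _ E, mul_pow _ (E * (y : ℝ) / (32 * n)), mul_pow _ E, pow_succ]
        ring
      have t4 : (n : ℝ) / y * E * (E * y / (32 * n)) * E ≤ 2 / 3 := by
        have e : (n : ℝ) / y * E * (E * y / (32 * n)) * E = E ^ 3 / 32 := by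
          field_simp
        rw [e, div_le_iff₀ (by positivity)]
        have : (2.7182818286 : ℝ) ^ 3 ≤ 2 / 3 * 32 := by norm_num
        linarith
      have t5 : E * y / (32 * n) ≤ 1 / 8 := by
        rw [div_le_iff₀ (by positivity)]
        have h1 : E * y ≤ 3 * n := mul_le_mul (by linarith) hyn hy0.le (by norm_num)
        linarith
      refine (mul_le_mul t1 t2 (by positivity) (by positivity)).trans ?_
      rw [t3]
      exact mul_le_mul t5 (pow_le_pow_left₀ (by positivity) t4 y) (by positivity) (by norm_num)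
  have h3 := Finset.sum_le_sum second
  rw [← Finset.mul_sum] at h3
  have h4 : ∑ y ∈ Finset.range (2 * u + 1), ((2 : ℝ) / 3) ^ y ≤ 3 := by
    rw [geom_sum_eq (by norm_num)]
    have : (0 : ℝ) ≤ (2 / 3) ^ (2 * u + 1) := by positivity
    rw [div_le_iff_of_neg (by norm_num)]
    linarith
  linarith

end Pool.Agent.T6.H2.WK
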