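import Pool.Agent.T6.H2.WK.Det
import Pool.Agent.T6.H2.WK.Num2
import Pool.Agent.T6.H63.WK.POT

set_option autoImplicit false

open Finset Pool.Agent.Y117.SG

namespace Pool.Agent.T6.H2.WK

open Pool.Agent.T6.H63.WK Pool.Agent.T6.H63.WK.CNT

lemma ite_le_of_nonneg {p : Prop} [Decidable p] {a : ℝ} (ha : 0 ≤ a) : (if p then a else 0) ≤ a := by
  split_ifs
  · exact le_rfl
  · exact ha

theorem main2 (n k q : ℕ) (hk : 2 ≤ k) (hn : 200 * k ≤ n)
    (hq : (64 : ℝ) * k ^ 2 * (n.choose k : ℝ) ≤ n * ((q : ℝ) + 1)) :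
    ¬ Forces (offerWC q) (fun Y : Finset (Clause n) => ¬ Sat Y) (board n k) ∅ := by
  classical
  intro hF
  obtain ⟨u, hu⟩ : ∃ u, u = n / (2 * k) := ⟨_, rfl⟩
  have hku : 2 * k * u ≤ n := by rw [hu]; exact Nat.mul_div_le n (2 * k)
  have hkn : k ≤ n := by omega
  have hn0 : (0 : ℝ) < n := by exact_mod_cast (by omega : 0 < n)
  have hk0 : (0 : ℝ) < k := by exact_mod_cast (by omega : 0 < k)
  have hC0 : (0 : ℝ) < (n.choose k : ℝ) := by exact_mod_cast Nat.choose_pos hkn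
  have hQ0 : (0 : ℝ) < (q : ℝ) + 1 := by positivity
  have hexp : ∀ w : ℕ, w ≤ 2 * u → Real.exp ((k : ℝ) * w / n) ≤ Real.exp 1 := by
    intro w hw
    apply Real.exp_le_exp.2
    rw [div_le_one hn0]
    have : k * w ≤ n := by nlinarith
    exact_mod_cast this
  have hCQ : (n.choose k : ℝ) * ((q : ℝ) + 1)⁻¹ ≤ n / (64 * k ^ 2) := by
    rw [← div_eq_mul_inv, div_le_div_iff₀ hQ0 (by positivity)]
    linarith
  have hf2 : ∀ W : Finset (Fin n), W.card ≤ 2 * u →
      ((fam2 n k W).card : ℝ) * ((q : ℝ) + 1)⁻¹ ≤ Real.exp 1 * (W.card : ℝ) ^ 2 / (32 * n) := by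
    intro W hW
    have h1 := cnt2 n k hk hkn W
    have h2 := hexp W.card hW
    calc ((fam2 n k W).card : ℝ) * ((q : ℝ) + 1)⁻¹
        ≤ (2 * (W.card : ℝ) ^ 2 * ((k : ℝ) / n) ^ 2 * (n.choose k : ℝ) * Real.exp 1) * ((q : ℝ) + 1)⁻¹ := by
          apply mul_le_mul_of_nonneg_right _ (by positivity)
          exact h1.trans (mul_le_mul_of_nonneg_left h2 (by positivity))
      _ = (2 * (W.card : ℝ) ^ 2 * ((k : ℝ) / n) ^ 2 * Real.exp 1) * ((n.choose k : ℝ) * ((q : ℝ) + 1)⁻¹) := by ring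
      _ ≤ (2 * (W.card : ℝ) ^ 2 * ((k : ℝ) / n) ^ 2 * Real.exp 1) * (n / (64 * k ^ 2)) :=
          mul_le_mul_of_nonneg_left hCQ (by positivity)
      _ = _ := by
          field_simp
          ring
  obtain ⟨I1, hI1⟩ : ∃ I1 : Finset (Finset (Clause n)),
      I1 = (powersetCard u (board n k)).filter fun U => Con posv pp ∅ U := ⟨_, rfl⟩
  obtain ⟨I2, hI2⟩ : ∃ I2 : Finset (Σ _ : ℕ, Σ _ : Finset (Fin n), Finset (Clause n)),
      I2 = (range (2 * u + 1)).sigma (fun y => (powersetCard y univ).sigma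
        (fun W => powersetCard (y + 1) (fam2 n k W))) := ⟨_, rfl⟩
  have hs1 : ∑ i ∈ I1, ((q : ℝ) + 1)⁻¹ ^ (i \ (∅ : Finset (Clause n))).card ≤
      ((1 + 2 * Real.exp 1) * (n / (64 * k ^ 2))) ^ u / (u.factorial : ℝ) := by
    have h1 : ∑ i ∈ I1, ((q : ℝ) + 1)⁻¹ ^ (i \ (∅ : Finset (Clause n))).card =
        (I1.card : ℝ) * ((q : ℝ) + 1)⁻¹ ^ u := by
      rw [Finset.sum_congr rfl (g := fun _ => ((q : ℝ) + 1)⁻¹ ^ u), Finset.sum_const, nsmul_eq_mul]
      intro s hs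
      rw [hI1] at hs
      rw [Finset.sdiff_empty, (Finset.mem_powersetCard.1 (Finset.mem_filter.1 hs).1).2]
    rw [h1, hI1]
    have h2 := num_con n k u hk hkn hku
    calc _ ≤ ((1 + 2 * Real.exp 1) * (n.choose k : ℝ)) ^ u / (u.factorial : ℝ) *
          ((q : ℝ) + 1)⁻¹ ^ u := mul_le_mul_of_nonneg_right (by convert h2) (by positivity)
      _ = ((1 + 2 * Real.exp 1) * ((n.choose k : ℝ) * ((q : ℝ) + 1)⁻¹)) ^ u / (u.factorial : ℝ) := by
          rw [← mul_assoc, mul_pow _ (((q : ℝ) + 1)⁻¹)]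
          ring
      _ ≤ _ := by
          apply div_le_div_of_nonneg_right _ (by positivity)
          exact pow_le_pow_left₀ (by positivity) (mul_le_mul_of_nonneg_left hCQ (by positivity)) u
  have hs2 : ∑ i ∈ I2, ((q : ℝ) + 1)⁻¹ ^ (i.2.2 \ (∅ : Finset (Clause n))).card ≤
      ∑ y ∈ Finset.range (2 * u + 1), (n.choose y : ℝ) *
      ((Real.exp 1 * y ^ 2 / (32 * n)) ^ (y + 1) / ((y + 1).factorial : ℝ)) := by
    rw [hI2, Finset.sum_sigma]
    apply Finset.sum_le_sum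
    intro y hy
    have hy2 : y ≤ 2 * u := by
      have := Finset.mem_range.1 hy
      omega
    rw [Finset.sum_sigma]
    calc _ ≤ ∑ W ∈ powersetCard y (univ : Finset (Fin n)),
          ((Real.exp 1 * y ^ 2 / (32 * n)) ^ (y + 1) / ((y + 1).factorial : ℝ)) := by
          apply Finset.sum_le_sum
          intro W hW
          have hWc := (Finset.mem_powersetCard.1 hW).2
          have h1 : ∑ s ∈ powersetCard (y + 1) (fam2 n k W), ((q : ℝ) + 1)⁻¹ ^ (s \ (∅ : Finset (Clause n))).card =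
              ((fam2 n k W).card.choose (y + 1) : ℝ) * ((q : ℝ) + 1)⁻¹ ^ (y + 1) := by
            rw [Finset.sum_congr rfl (g := fun _ => ((q : ℝ) + 1)⁻¹ ^ (y + 1)), Finset.sum_const,
              Finset.card_powersetCard, nsmul_eq_mul]
            intro s hs
            rw [Finset.sdiff_empty, (Finset.mem_powersetCard.1 hs).2]
          rw [h1]
          calc ((fam2 n k W).card.choose (y + 1) : ℝ) * ((q : ℝ) + 1)⁻¹ ^ (y + 1)
              ≤ (((fam2 n k W).card : ℝ) ^ (y + 1) / ((y + 1).factorial : ℝ)) * ((q : ℝ) + 1)⁻¹ ^ (y + 1) :=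
                mul_le_mul_of_nonneg_right (Nat.choose_le_pow_div _ _) (by positivity)
            _ = (((fam2 n k W).card : ℝ) * ((q : ℝ) + 1)⁻¹) ^ (y + 1) / ((y + 1).factorial : ℝ) := by
                rw [mul_pow]; ring
            _ ≤ _ := by
                apply div_le_div_of_nonneg_right _ (by positivity)
                have h3 := hf2 W (by omega)
                rw [hWc] at h3
                exact pow_le_pow_left₀ (by positivity) h3 (y + 1)
      _ = _ := by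
          rw [Finset.sum_const, Finset.card_powersetCard, nsmul_eq_mul]
          simp
  obtain ⟨Y', hY'sub, hY'sat, hY'⟩ := pot (Clause n)
    ((Finset (Clause n)) ⊕ (Σ _ : ℕ, Σ _ : Finset (Fin n), Finset (Clause n))) q
    (fun Y : Finset (Clause n) => ¬ Sat Y) (I1.disjSum I2)
    (Sum.elim (fun i => i) (fun i => i.2.2)) (board n k) ∅ hF (by
      refine lt_of_le_of_lt ?_ (num2 n k u hk hn hu)
      rw [Finset.sum_disjSum]
      refine add_le_add (le_trans (Finset.sum_le_sum fun i _ => ?_) hs1)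
        (le_trans (Finset.sum_le_sum fun i _ => ?_) hs2)
      · exact ite_le_of_nonneg (by positivity)
      · exact ite_le_of_nonneg (by positivity)) (by simp)
  apply hY'sat
  have hYB : Y' ⊆ board n k := by simpa using hY'sub
  apply sat_of n k u Y' hk hYB
  · intro U hU hUc hUf
    apply hY' (Sum.inl U) _ hU
    rw [Finset.inl_mem_disjSum, hI1, Finset.mem_filter]
    exact ⟨Finset.mem_powersetCard.2 ⟨hU.trans hYB, hUc⟩, hUf⟩
  · intro W hW U hU hUc hUf
    apply hY' (Sum.inr ⟨W.card, W, U⟩) _ hU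
    rw [Finset.inr_mem_disjSum, hI2, Finset.mem_sigma]
    refine ⟨Finset.mem_range.2 (by show W.card < 2 * u + 1; omega), ?_⟩
    rw [Finset.mem_sigma]
    exact ⟨Finset.mem_powersetCard.2 ⟨Finset.subset_univ _, rfl⟩, Finset.mem_powersetCard.2 ⟨hUf, hUc⟩⟩

/-- the bound for the ratio of the question -/
theorem ratio2 (n k : ℕ) (hk : 2 ≤ k) (hn : 200 * k ≤ n) :
    1 / (65 * (k : ℝ) ^ 2 * Real.log 2) ≤
      1 / (n : ℝ) * (n.choose k : ℝ) * ((bWC n k : ℝ))⁻¹ / Real.log 2 := by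
  have hkn : k ≤ n := by omega
  have hn0 : (0 : ℝ) < n := by exact_mod_cast (by omega : 0 < n)
  have hk0 : (2 : ℝ) ≤ k := by exact_mod_cast hk
  have hC0 : (0 : ℝ) < (n.choose k : ℝ) := by exact_mod_cast Nat.choose_pos hkn
  have hCn : (n : ℝ) ≤ (n.choose k : ℝ) := by
    have h0 : ∀ j : ℕ, 1 ≤ j → j ≤ k → n.choose 1 ≤ n.choose j := by
      intro j hj
      induction j, hj using Nat.le_induction with
      | base => intro _; exact le_rfl
      | succ j hj ih =>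
        intro hjk
        exact (ih (by omega)).trans (Nat.choose_le_succ_of_lt_half_left (by omega))
    have h1 : n.choose 1 ≤ n.choose k := h0 k (by omega) le_rfl
    rw [Nat.choose_one_right] at h1
    exact_mod_cast h1
  obtain ⟨q, hq⟩ : ∃ q : ℕ, q = ⌈(64 : ℝ) * k ^ 2 * (n.choose k : ℝ) / n⌉₊ := ⟨_, rfl⟩
  have hq1 : (64 : ℝ) * k ^ 2 * (n.choose k : ℝ) / n ≤ q := by rw [hq]; exact Nat.le_ceil _
  have hqpos : 1 ≤ q := by
    have : (0 : ℝ) < q := lt_of_lt_of_le (by positivity) hq1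
    exact_mod_cast this
  have hmem : q ∈ {q : ℕ | 1 ≤ q ∧ ¬ Forces (offerWC q) (fun Y => ¬ Sat Y) (board n k) ∅} := by
    refine ⟨hqpos, main2 n k q hk hn ?_⟩
    rw [div_le_iff₀ hn0] at hq1
    nlinarith
  have hb1 : bWC n k ≤ q := Nat.sInf_le hmem
  have hb2 : 1 ≤ bWC n k := (Nat.sInf_mem ⟨q, hmem⟩).1
  have hb0 : (0 : ℝ) < (bWC n k : ℝ) := by exact_mod_cast hb2
  have hb : (bWC n k : ℝ) ≤ 65 * k ^ 2 * (n.choose k : ℝ) / n := by
    have h1 : (q : ℝ) < (64 : ℝ) * k ^ 2 * (n.choose k : ℝ) / n + 1 := by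
      rw [hq]; exact Nat.ceil_lt_add_one (by positivity)
    have h2 : (1 : ℝ) ≤ k ^ 2 * (n.choose k : ℝ) / n := by
      rw [le_div_iff₀ hn0]
      have : (1 : ℝ) ≤ (k : ℝ) ^ 2 := one_le_pow₀ (by linarith)
      nlinarith
    have h3 : (bWC n k : ℝ) ≤ q := by exact_mod_cast hb1
    have h4 : (65 : ℝ) * k ^ 2 * (n.choose k : ℝ) / n =
      (64 : ℝ) * k ^ 2 * (n.choose k : ℝ) / n + k ^ 2 * (n.choose k : ℝ) / n := by ring
    linarith
  have hl : 0 < Real.log 2 := Real.log_pos (by norm_num)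
  have h5 : (65 * (k : ℝ) ^ 2)⁻¹ ≤ 1 / (n : ℝ) * (n.choose k : ℝ) * ((bWC n k : ℝ))⁻¹ := by
    rw [le_div_iff₀ hn0] at hb
    rw [one_div_mul_eq_div, ← div_eq_mul_inv, div_div, le_div_iff₀ (by positivity),
      inv_mul_le_iff₀ (by positivity)]
    linarith
  calc 1 / (65 * (k : ℝ) ^ 2 * Real.log 2) = (65 * (k : ℝ) ^ 2)⁻¹ / Real.log 2 := by
        field_simp
    _ ≤ _ := div_le_div_of_nonneg_right h5 hl.le

end Pool.Agent.T6.H2.WK
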