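import Mathlib

/-! Waiter-Client `k`-SAT: the numerical inequality for the bound `36 h k`. -/

set_option autoImplicit false

open Finset

namespace Pool.Agent.T6.H2.WK

theorem numh (n k h u : ℕ) (hh : 11 ≤ h) (hhk : h ≤ k) (hk2 : k ≤ 2 ^ h) (hn : 100 * (h * k) ≤ n)
    (hu : u = n / (h * k)) :
  ((1 + 2 * Real.exp 1) * (n / (36 * h * k))) ^ u / (u.factorial : ℝ) +
    ∑ y ∈ Finset.range (h * u + 1), (n.choose y : ℝ) *
      (((y.choose h : ℝ) * ((2 * k / n) ^ h * Real.exp 1 * (n / (36 * h * k)))) ^ (y + 1) /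
        ((y + 1).factorial : ℝ)) < 1 := by
  have hE1 : Real.exp 1 < 2.7182818286 := Real.exp_one_lt_d9
  have hE0 : 0 < Real.exp 1 := Real.exp_pos 1
  obtain ⟨E, hE⟩ : ∃ E : ℝ, E = Real.exp 1 := ⟨_, rfl⟩
  rw [← hE] at hE1 hE0 ⊢
  have hexp : ∀ m : ℕ, Real.exp (m : ℝ) = E ^ m := by
    intro m
    rw [hE, ← Real.exp_nat_mul, mul_one]
  have hf : ∀ a m : ℕ, (a : ℝ) ^ m / (m.factorial : ℝ) ≤ E ^ a := by
    intro a m
    rw [← hexp]
    exact Real.pow_div_factorial_le_exp _ (Nat.cast_nonneg _) _
  have hhr : (11 : ℝ) ≤ h := by exact_mod_cast hh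
  have hh0 : (0 : ℝ) < h := by linarith
  have hk11 : (11 : ℝ) ≤ k := by exact_mod_cast (hh.trans hhk)
  have hk0 : (0 : ℝ) < k := by linarith
  have hhk0 : 0 < h * k := Nat.mul_pos (by omega) (by omega)
  have hnr : (100 : ℝ) * (h * k) ≤ n := by exact_mod_cast hn
  have hn0 : (0 : ℝ) < n := lt_of_lt_of_le (by positivity) hnr
  have hu1 : 100 ≤ u := by
    rw [hu, Nat.le_div_iff_mul_le hhk0]
    exact hn
  have hu2 : h * k * u ≤ n := by
    rw [hu]
    exact Nat.mul_div_le n (h * k)
  have hu3 : n < h * k * (u + 1) := by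
    rw [hu]
    exact Nat.lt_mul_div_succ n hhk0
  have hu1r : (100 : ℝ) ≤ u := by exact_mod_cast hu1
  have hu0 : (0 : ℝ) < u := by linarith
  have hu3r : (n : ℝ) < h * k * (u + 1) := by exact_mod_cast hu3
  -- the first term
  have first : ((1 + 2 * E) * (n / (36 * h * k))) ^ u / (u.factorial : ℝ) ≤ 1 / 4 := by
    obtain ⟨r, hr⟩ : ∃ r : ℝ, r = n / u := ⟨_, rfl⟩
    have hr0 : 0 < r := by rw [hr]; positivity
    have hnr2 : (n : ℝ) = r * u := by rw [hr]; field_simp
    have hr2 : r ≤ 1.01 * (h * k) := by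
      rw [hr, div_le_iff₀ hu0]
      have : (h : ℝ) * k * 1 ≤ h * k * (u / 100) := by
        apply mul_le_mul_of_nonneg_left _ (by positivity)
        linarith
      nlinarith
    have t2 : ((1 + 2 * E) * (n / (36 * h * k))) ^ u / (u.factorial : ℝ) ≤
        ((1 + 2 * E) * (r / (36 * h * k)) * E) ^ u := by
      calc ((1 + 2 * E) * (n / (36 * h * k))) ^ u / (u.factorial : ℝ)
          = ((1 + 2 * E) * (r / (36 * h * k))) ^ u * ((u : ℝ) ^ u / (u.factorial : ℝ)) := by
            have e : (1 + 2 * E) * (n / (36 * h * k)) = ((1 + 2 * E) * (r / (36 * h * k))) * u := by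
              rw [hnr2]
              ring
            rw [e, mul_pow, mul_div_assoc]
        _ ≤ ((1 + 2 * E) * (r / (36 * h * k))) ^ u * E ^ u :=
            mul_le_mul_of_nonneg_left (hf _ _) (by positivity)
        _ = _ := by rw [← mul_pow]
    have t4 : (1 + 2 * E) * (r / (36 * h * k)) * E ≤ 1 / 2 := by
      have h1 : r / (36 * h * k) ≤ 1.01 / 36 := by
        rw [div_le_div_iff₀ (by positivity) (by norm_num)]
        nlinarith
      have h2 : (1 + 2 * E) * E ≤ (1 + 2 * 2.7182818286) * 2.7182818286 :=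
        mul_le_mul (by linarith) hE1.le hE0.le (by norm_num)
      have h3 : (1 + 2 * E) * (r / (36 * h * k)) * E = (1 + 2 * E) * E * (r / (36 * h * k)) := by ring
      rw [h3]
      calc (1 + 2 * E) * E * (r / (36 * h * k)) ≤
          ((1 + 2 * 2.7182818286) * 2.7182818286) * (1.01 / 36) :=
            mul_le_mul h2 h1 (by positivity) (by norm_num)
        _ ≤ 1 / 2 := by norm_num
    refine t2.trans ((pow_le_pow_left₀ (by positivity) t4 u).trans ?_)
    calc (1 / 2 : ℝ) ^ u ≤ (1 / 2) ^ 2 := pow_le_pow_of_le_one (by norm_num) (by norm_num) (by omega)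
      _ = 1 / 4 := by norm_num
  -- the bracket
  have brack : ∀ y : ℕ, y ≤ h * u → (y.choose h : ℝ) * ((2 * k / n) ^ h * E * (n / (36 * h * k))) ≤
      1 / 64 * y ^ 2 / n := by
    intro y hy
    have hky : (k : ℝ) * y ≤ n := by
      have : k * y ≤ n := (Nat.mul_le_mul_left k hy).trans (le_trans (le_of_eq (by ring)) hu2)
      exact_mod_cast this
    have hz1 : (k : ℝ) * y / n ≤ 1 := by
      rw [div_le_one hn0]
      exact hky
    have hz0 : 0 ≤ (k : ℝ) * y / n := by positivity
    have c1 : (y.choose h : ℝ) ≤ ((y : ℝ) * E / h) ^ h := by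
      calc (y.choose h : ℝ) ≤ (y : ℝ) ^ h / (h.factorial : ℝ) := Nat.choose_le_pow_div _ _
        _ = ((y : ℝ) / h) ^ h * ((h : ℝ) ^ h / (h.factorial : ℝ)) := by
            rw [div_pow]
            field_simp
        _ ≤ ((y : ℝ) / h) ^ h * E ^ h := mul_le_mul_of_nonneg_left (hf _ _) (by positivity)
        _ = _ := by rw [← mul_pow]; congr 1; ring
    have c2 : ((y : ℝ) * E / h) ^ h * (2 * k / n) ^ h = (2 * E / h) ^ h * ((k : ℝ) * y / n) ^ h := by
      rw [← mul_pow, ← mul_pow]
      congr 1
      field_simp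
    have c3 : ((k : ℝ) * y / n) ^ h ≤ ((k : ℝ) * y / n) ^ 2 :=
      pow_le_pow_of_le_one hz0 hz1 (by omega)
    have c4 : (2 * E / h) ^ h * (k : ℝ) ≤ 1 := by
      have hk2r : (k : ℝ) ≤ 2 ^ h := by exact_mod_cast hk2
      calc (2 * E / h) ^ h * (k : ℝ) ≤ (2 * E / h) ^ h * 2 ^ h :=
            mul_le_mul_of_nonneg_left hk2r (by positivity)
        _ = (4 * E / h) ^ h := by
            rw [← mul_pow]
            congr 1
            ring
        _ ≤ 1 := by
            apply pow_le_one₀ (by positivity)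
            rw [div_le_one hh0]
            linarith
    have c5 : (0 : ℝ) ≤ (2 * E / h) ^ h := by positivity
    calc (y.choose h : ℝ) * ((2 * k / n) ^ h * E * (n / (36 * h * k)))
        ≤ ((y : ℝ) * E / h) ^ h * ((2 * k / n) ^ h * E * (n / (36 * h * k))) :=
          mul_le_mul_of_nonneg_right c1 (by positivity)
      _ = (((y : ℝ) * E / h) ^ h * (2 * k / n) ^ h) * (E * (n / (36 * h * k))) := by ring
      _ = (2 * E / h) ^ h * ((k : ℝ) * y / n) ^ h * (E * (n / (36 * h * k))) := by rw [c2]
      _ ≤ (2 * E / h) ^ h * ((k : ℝ) * y / n) ^ 2 * (E * (n / (36 * h * k))) :=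
          mul_le_mul_of_nonneg_right (mul_le_mul_of_nonneg_left c3 c5) (by positivity)
      _ = ((2 * E / h) ^ h * (k : ℝ)) * (E / (36 * h)) * (y ^ 2 / n) := by
          field_simp
      _ ≤ 1 * (1 / 64) * (y ^ 2 / n) := by
          apply mul_le_mul_of_nonneg_right _ (by positivity)
          apply mul_le_mul c4 _ (by positivity) (by norm_num)
          rw [div_le_div_iff₀ (by positivity) (by norm_num)]
          linarith
      _ = _ := by ring
  -- the second sum
  have second : ∀ y ∈ Finset.range (h * u + 1), (n.choose y : ℝ) *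
      (((y.choose h : ℝ) * ((2 * k / n) ^ h * E * (n / (36 * h * k)))) ^ (y + 1) /
        ((y + 1).factorial : ℝ)) ≤ 1 / 8 * (1 / 2) ^ y := by
    intro y hy
    rw [Finset.mem_range] at hy
    rcases Nat.eq_zero_or_pos y with h0 | h0
    · subst h0
      have : (Nat.choose 0 h : ℝ) = 0 := by
        rw [Nat.choose_eq_zero_of_lt (by omega)]
        norm_num
      rw [this]
      norm_num
    · have hy0 : (0 : ℝ) < y := by exact_mod_cast h0
      have hyn : (y : ℝ) ≤ n := by
        have : y ≤ n := by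
          calc y ≤ h * u := by omega
            _ ≤ h * k * u := by
                apply Nat.mul_le_mul_right
                exact Nat.le_mul_of_pos_right h (by omega)
            _ ≤ n := hu2
        exact_mod_cast this
      have hb := brack y (by omega)
      have t1 : (n.choose y : ℝ) ≤ (n / y) ^ y * E ^ y := by
        calc (n.choose y : ℝ) ≤ (n : ℝ) ^ y / (y.factorial : ℝ) := Nat.choose_le_pow_div _ _
          _ = (n / y) ^ y * ((y : ℝ) ^ y / (y.factorial : ℝ)) := by
              rw [← mul_div_assoc, ← mul_pow]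
              congr 2
              field_simp
          _ ≤ _ := mul_le_mul_of_nonneg_left (hf _ _) (by positivity)
      have t2 : ((y.choose h : ℝ) * ((2 * k / n) ^ h * E * (n / (36 * h * k)))) ^ (y + 1) /
          ((y + 1).factorial : ℝ) ≤ (1 / 64 * y / n) ^ (y + 1) * E ^ y := by
        calc _ ≤ (1 / 64 * (y : ℝ) ^ 2 / n) ^ (y + 1) / ((y + 1).factorial : ℝ) := by
              apply div_le_div_of_nonneg_right _ (by positivity)
              exact pow_le_pow_left₀ (by positivity) hb _
          _ = (1 / 64 * y / n) ^ (y + 1) * ((y : ℝ) ^ (y + 1) / ((y + 1).factorial : ℝ)) := by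
              rw [← mul_div_assoc, ← mul_pow]
              congr 2
              ring
          _ ≤ _ := mul_le_mul_of_nonneg_left (hf _ _) (by positivity)
      have t3 : (n / y) ^ y * E ^ y * ((1 / 64 * y / n) ^ (y + 1) * E ^ y) =
          (1 / 64 * y / n) * (n / y * E * (1 / 64 * y / n) * E) ^ y := by
        rw [mul_pow _ E, mul_pow _ (1 / 64 * (y : ℝ) / n), mul_pow _ E, pow_succ]
        ring
      have t4 : (n : ℝ) / y * E * (1 / 64 * y / n) * E ≤ 1 / 2 := by
        have e : (n : ℝ) / y * E * (1 / 64 * y / n) * E = E ^ 2 / 64 := by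
          field_simp
        rw [e, div_le_iff₀ (by positivity)]
        nlinarith
      have t5 : 1 / 64 * (y : ℝ) / n ≤ 1 / 8 := by
        rw [div_le_iff₀ (by positivity)]
        linarith
      refine (mul_le_mul t1 t2 (by positivity) (by positivity)).trans ?_
      rw [t3]
      exact mul_le_mul t5 (pow_le_pow_left₀ (by positivity) t4 y) (by positivity) (by norm_num)
  have h3 := Finset.sum_le_sum second
  rw [← Finset.mul_sum] at h3
  have h4 := sum_geometric_two_le (h * u + 1)
  linarith

end Pool.Agent.T6.H2.WK
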