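import Pool.Agent.T6.H2.WK.Deth
import Pool.Agent.T6.H2.WK.Numh
import Pool.Agent.T6.H2.WK.Main2
import Pool.Agent.T6.H63.WK.POT

set_option autoImplicit false

open Finset Pool.Agent.Y117.SG

namespace Pool.Agent.T6.H2.WK

open Pool.Agent.T6.H63.WK Pool.Agent.T6.H63.WK.CNT Pool.Agent.T6.H63.WL

theorem mainh (n k h q : ℕ) (hh : 11 ≤ h) (hhk : h ≤ k) (hk2 : k ≤ 2 ^ h) (hn : 100 * (h * k) ≤ n)
    (hq : (36 : ℝ) * h * k * (n.choose k : ℝ) ≤ n * ((q : ℝ) + 1)) :
    ¬ Forces (offerWC q) (fun Y : Finset (Clause n) => ¬ Sat Y) (board n k) ∅ := by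
  classical
  intro hF
  obtain ⟨u, hu⟩ : ∃ u, u = n / (h * k) := ⟨_, rfl⟩
  have hku : h * k * u ≤ n := by rw [hu]; exact Nat.mul_div_le n (h * k)
  have hk : 2 ≤ k := by omega
  have hkn : k ≤ n := by
    have : k ≤ h * k := Nat.le_mul_of_pos_left k (by omega)
    omega
  have hh0 : (0 : ℝ) < h := by exact_mod_cast (by omega : 0 < h)
  have hn0 : (0 : ℝ) < n := by exact_mod_cast (by omega : 0 < n)
  have hk0 : (0 : ℝ) < k := by exact_mod_cast (by omega : 0 < k)
  have hC0 : (0 : ℝ) < (n.choose k : ℝ) := by exact_mod_cast Nat.choose_pos hkn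
  have hQ0 : (0 : ℝ) < (q : ℝ) + 1 := by positivity
  have hexp : ∀ w : ℕ, w ≤ h * u → Real.exp ((k : ℝ) * w / n) ≤ Real.exp 1 := by
    intro w hw
    apply Real.exp_le_exp.2
    rw [div_le_one hn0]
    have : k * w ≤ n := (Nat.mul_le_mul_left k hw).trans (le_trans (le_of_eq (by ring)) hku)
    exact_mod_cast this
  have hCQ : (n.choose k : ℝ) * ((q : ℝ) + 1)⁻¹ ≤ n / (36 * h * k) := by
    rw [← div_eq_mul_inv, div_le_div_iff₀ hQ0 (by positivity)]
    linarith
  have hf2 : ∀ W : Finset (Fin n), W.card ≤ h * u →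
      ((famh n k h W).card : ℝ) * ((q : ℝ) + 1)⁻¹ ≤
        (W.card.choose h : ℝ) * ((2 * k / n) ^ h * Real.exp 1 * (n / (36 * h * k))) := by
    intro W hW
    have h1 := (wt ct n k h (by omega) hhk hkn W).2
    have h2 := hexp W.card hW
    calc ((famh n k h W).card : ℝ) * ((q : ℝ) + 1)⁻¹
        ≤ ((W.card.choose h : ℝ) * ((n.choose k : ℝ) * (2 * k / n) ^ h * Real.exp 1)) *
            ((q : ℝ) + 1)⁻¹ := by
          apply mul_le_mul_of_nonneg_right _ (by positivity)
          exact h1.trans (mul_le_mul_of_nonneg_left (mul_le_mul_of_nonneg_left h2 (by positivity))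
            (by positivity))
      _ = ((W.card.choose h : ℝ) * ((2 * k / n) ^ h * Real.exp 1)) *
            ((n.choose k : ℝ) * ((q : ℝ) + 1)⁻¹) := by ring
      _ ≤ ((W.card.choose h : ℝ) * ((2 * k / n) ^ h * Real.exp 1)) * (n / (36 * h * k)) :=
          mul_le_mul_of_nonneg_left hCQ (by positivity)
      _ = _ := by ring
  obtain ⟨I1, hI1⟩ : ∃ I1 : Finset (Finset (Clause n)),
      I1 = (powersetCard u (board n k)).filter fun U => Con posv (pph h) ∅ U := ⟨_, rfl⟩
  obtain ⟨I2, hI2⟩ : ∃ I2 : Finset (Σ _ : ℕ, Σ _ : Finset (Fin n), Finset (Clause n)),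
      I2 = (range (h * u + 1)).sigma (fun y => (powersetCard y univ).sigma
        (fun W => powersetCard (y + 1) (famh n k h W))) := ⟨_, rfl⟩
  have hs1 : ∑ i ∈ I1, ((q : ℝ) + 1)⁻¹ ^ (i \ (∅ : Finset (Clause n))).card ≤
      ((1 + 2 * Real.exp 1) * (n / (36 * h * k))) ^ u / (u.factorial : ℝ) := by
    have h1 : ∑ i ∈ I1, ((q : ℝ) + 1)⁻¹ ^ (i \ (∅ : Finset (Clause n))).card =
        (I1.card : ℝ) * ((q : ℝ) + 1)⁻¹ ^ u := by
      rw [Finset.sum_congr rfl (g := fun _ => ((q : ℝ) + 1)⁻¹ ^ u), Finset.sum_const, nsmul_eq_mul]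
      intro s hs
      rw [hI1] at hs
      rw [Finset.sdiff_empty, (Finset.mem_powersetCard.1 (Finset.mem_filter.1 hs).1).2]
    rw [h1, hI1]
    have h2 := num_conh n k h u hk hkn hku
    calc _ ≤ ((1 + 2 * Real.exp 1) * (n.choose k : ℝ)) ^ u / (u.factorial : ℝ) *
          ((q : ℝ) + 1)⁻¹ ^ u := mul_le_mul_of_nonneg_right (by convert h2) (by positivity)
      _ = ((1 + 2 * Real.exp 1) * ((n.choose k : ℝ) * ((q : ℝ) + 1)⁻¹)) ^ u / (u.factorial : ℝ) := by
          rw [← mul_assoc, mul_pow _ (((q : ℝ) + 1)⁻¹)]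
          ring
      _ ≤ _ := by
          apply div_le_div_of_nonneg_right _ (by positivity)
          exact pow_le_pow_left₀ (by positivity) (mul_le_mul_of_nonneg_left hCQ (by positivity)) u
  have hs2 : ∑ i ∈ I2, ((q : ℝ) + 1)⁻¹ ^ (i.2.2 \ (∅ : Finset (Clause n))).card ≤
      ∑ y ∈ Finset.range (h * u + 1), (n.choose y : ℝ) *
      (((y.choose h : ℝ) * ((2 * k / n) ^ h * Real.exp 1 * (n / (36 * h * k)))) ^ (y + 1) /
        ((y + 1).factorial : ℝ)) := by
    rw [hI2, Finset.sum_sigma]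
    apply Finset.sum_le_sum
    intro y hy
    have hy2 : y ≤ h * u := by
      have := Finset.mem_range.1 hy
      omega
    rw [Finset.sum_sigma]
    calc _ ≤ ∑ W ∈ powersetCard y (univ : Finset (Fin n)),
          (((y.choose h : ℝ) * ((2 * k / n) ^ h * Real.exp 1 * (n / (36 * h * k)))) ^ (y + 1) /
            ((y + 1).factorial : ℝ)) := by
          apply Finset.sum_le_sum
          intro W hW
          have hWc := (Finset.mem_powersetCard.1 hW).2
          have h1 : ∑ s ∈ powersetCard (y + 1) (famh n k h W), ((q : ℝ) + 1)⁻¹ ^ (s \ (∅ : Finset (Clause n))).card =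
              ((famh n k h W).card.choose (y + 1) : ℝ) * ((q : ℝ) + 1)⁻¹ ^ (y + 1) := by
            rw [Finset.sum_congr rfl (g := fun _ => ((q : ℝ) + 1)⁻¹ ^ (y + 1)), Finset.sum_const,
              Finset.card_powersetCard, nsmul_eq_mul]
            intro s hs
            rw [Finset.sdiff_empty, (Finset.mem_powersetCard.1 hs).2]
          rw [h1]
          calc ((famh n k h W).card.choose (y + 1) : ℝ) * ((q : ℝ) + 1)⁻¹ ^ (y + 1)
              ≤ (((famh n k h W).card : ℝ) ^ (y + 1) / ((y + 1).factorial : ℝ)) * ((q : ℝ) + 1)⁻¹ ^ (y + 1) :=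
                mul_le_mul_of_nonneg_right (Nat.choose_le_pow_div _ _) (by positivity)
            _ = (((famh n k h W).card : ℝ) * ((q : ℝ) + 1)⁻¹) ^ (y + 1) / ((y + 1).factorial : ℝ) := by
                rw [mul_pow]; ring
            _ ≤ _ := by
                apply div_le_div_of_nonneg_right _ (by positivity)
                have h3 := hf2 W (by omega)
                rw [hWc] at h3
                exact pow_le_pow_left₀ (by positivity) h3 (y + 1)
      _ = _ := by
          rw [Finset.sum_const, Finset.card_powersetCard, nsmul_eq_mul]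
          simp
  obtain ⟨Y', hY'sub, hY'sat, hY'⟩ := pot (Clause n)
    ((Finset (Clause n)) ⊕ (Σ _ : ℕ, Σ _ : Finset (Fin n), Finset (Clause n))) q
    (fun Y : Finset (Clause n) => ¬ Sat Y) (I1.disjSum I2)
    (Sum.elim (fun i => i) (fun i => i.2.2)) (board n k) ∅ hF (by
      refine lt_of_le_of_lt ?_ (numh n k h u hh hhk hk2 hn hu)
      rw [Finset.sum_disjSum]
      refine add_le_add (le_trans (Finset.sum_le_sum fun i _ => ?_) hs1)
        (le_trans (Finset.sum_le_sum fun i _ => ?_) hs2)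
      · exact ite_le_of_nonneg (by positivity)
      · exact ite_le_of_nonneg (by positivity)) (by simp)
  apply hY'sat
  have hYB : Y' ⊆ board n k := by simpa using hY'sub
  apply sat_ofh n k h u Y' (by omega) hhk hYB
  · intro U hU hUc hUf
    apply hY' (Sum.inl U) _ hU
    rw [Finset.inl_mem_disjSum, hI1, Finset.mem_filter]
    exact ⟨Finset.mem_powersetCard.2 ⟨hU.trans hYB, hUc⟩, hUf⟩
  · intro W hW U hU hUc hUf
    apply hY' (Sum.inr ⟨W.card, W, U⟩) _ hU
    rw [Finset.inr_mem_disjSum, hI2, Finset.mem_sigma]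
    refine ⟨Finset.mem_range.2 (by show W.card < h * u + 1; omega), ?_⟩
    rw [Finset.mem_sigma]
    exact ⟨Finset.mem_powersetCard.2 ⟨Finset.subset_univ _, rfl⟩, Finset.mem_powersetCard.2 ⟨hUf, hUc⟩⟩

/-- the bound for the ratio of the question -/
theorem ratioh (n k h : ℕ) (hh : 11 ≤ h) (hhk : h ≤ k) (hk2 : k ≤ 2 ^ h) (hn : 100 * (h * k) ≤ n) :
    1 / (37 * (h : ℝ) * k * Real.log 2) ≤
      1 / (n : ℝ) * (n.choose k : ℝ) * ((bWC n k : ℝ))⁻¹ / Real.log 2 := by
  have hk : 2 ≤ k := by omega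
  have hkn : k ≤ n := by
    have : k ≤ h * k := Nat.le_mul_of_pos_left k (by omega)
    omega
  have hk2n : 2 * k ≤ n := by
    have : k ≤ h * k := Nat.le_mul_of_pos_left k (by omega)
    omega
  have hh1 : (1 : ℝ) ≤ h := by exact_mod_cast (by omega : 1 ≤ h)
  have hn0 : (0 : ℝ) < n := by exact_mod_cast (by omega : 0 < n)
  have hk0 : (2 : ℝ) ≤ k := by exact_mod_cast hk
  have hC0 : (0 : ℝ) < (n.choose k : ℝ) := by exact_mod_cast Nat.choose_pos hkn
  have hCn : (n : ℝ) ≤ (n.choose k : ℝ) := by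
    have h0 : ∀ j : ℕ, 1 ≤ j → j ≤ k → n.choose 1 ≤ n.choose j := by
      intro j hj
      induction j, hj using Nat.le_induction with
      | base => intro _; exact le_rfl
      | succ j hj ih =>
        intro hjk
        exact (ih (by omega)).trans (Nat.choose_le_succ_of_lt_half_left (by omega))
    have h1 : n.choose 1 ≤ n.choose k := h0 k (by omega) le_rfl
    rw [Nat.choose_one_right] at h1
    exact_mod_cast h1
  obtain ⟨q, hq⟩ : ∃ q : ℕ, q = ⌈(36 : ℝ) * h * k * (n.choose k : ℝ) / n⌉₊ := ⟨_, rfl⟩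
  have hq1 : (36 : ℝ) * h * k * (n.choose k : ℝ) / n ≤ q := by rw [hq]; exact Nat.le_ceil _
  have hqpos : 1 ≤ q := by
    have : (0 : ℝ) < q := lt_of_lt_of_le (by positivity) hq1
    exact_mod_cast this
  have hmem : q ∈ {q : ℕ | 1 ≤ q ∧ ¬ Forces (offerWC q) (fun Y => ¬ Sat Y) (board n k) ∅} := by
    refine ⟨hqpos, mainh n k h q hh hhk hk2 hn ?_⟩
    rw [div_le_iff₀ hn0] at hq1
    nlinarith
  have hb1 : bWC n k ≤ q := Nat.sInf_le hmem
  have hb2 : 1 ≤ bWC n k := (Nat.sInf_mem ⟨q, hmem⟩).1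
  have hb0 : (0 : ℝ) < (bWC n k : ℝ) := by exact_mod_cast hb2
  have hb : (bWC n k : ℝ) ≤ 37 * h * k * (n.choose k : ℝ) / n := by
    have h1 : (q : ℝ) < (36 : ℝ) * h * k * (n.choose k : ℝ) / n + 1 := by
      rw [hq]; exact Nat.ceil_lt_add_one (by positivity)
    have h2 : (1 : ℝ) ≤ h * k * (n.choose k : ℝ) / n := by
      rw [le_div_iff₀ hn0]
      have : (1 : ℝ) ≤ (h : ℝ) * k := by nlinarith
      nlinarith
    have h3 : (bWC n k : ℝ) ≤ q := by exact_mod_cast hb1
    have h4 : (37 : ℝ) * h * k * (n.choose k : ℝ) / n =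
      (36 : ℝ) * h * k * (n.choose k : ℝ) / n + h * k * (n.choose k : ℝ) / n := by ring
    linarith
  have hl : 0 < Real.log 2 := Real.log_pos (by norm_num)
  have h5 : (37 * (h : ℝ) * k)⁻¹ ≤ 1 / (n : ℝ) * (n.choose k : ℝ) * ((bWC n k : ℝ))⁻¹ := by
    rw [le_div_iff₀ hn0] at hb
    rw [one_div_mul_eq_div, ← div_eq_mul_inv, div_div, le_div_iff₀ (by positivity),
      inv_mul_le_iff₀ (by positivity)]
    linarith
  calc 1 / (37 * (h : ℝ) * k * Real.log 2) = (37 * (h : ℝ) * k)⁻¹ / Real.log 2 := by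
        field_simp
    _ ≤ _ := div_le_div_of_nonneg_right h5 hl.le

end Pool.Agent.T6.H2.WK
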